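import Mathlib

/-!
# A strictly additive Steiner 2-design that is not regular

Take the point-line design of `AG(3,4)`, a `2-(64,4,1)` design, and replace the lines inside one
plane `W` by the lines of another affine plane structure on `W` whose lines are still cosets of
two-dimensional subspaces over the field with two elements. All blocks are zero-sum in the
elementary abelian group of order `64`, but the points of `W` can be told from the others.
-/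

namespace Pool.Agent.Results.MP_6c2242_co.AdditiveNotRegular

/-- `B` is the block set of a `2-(v,k,1)` design on the finite point set `V`. -/
structure IsSteiner {V : Type} [Fintype V] (k : ℕ) (B : Set (Finset V)) : Prop where
  two_le : 2 ≤ k
  le_card : k ≤ Fintype.card V
  size : ∀ b ∈ B, b.card = k
  unique : ∀ x y : V, x ≠ y → ∃! b, b ∈ B ∧ x ∈ b ∧ y ∈ b

/-- the design is strictly `G`-additive -/
def StrictlyAdditive (G : Type) [AddCommGroup G] {V : Type} (B : Set (Finset V)) : Prop :=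
  ∃ f : V ≃ G, ∀ b ∈ B, ∑ x ∈ b, f x = 0

/-- the design is `G`-regular -/
def Regular (G : Type) [AddCommGroup G] {V : Type} (B : Set (Finset V)) : Prop :=
  ∃ f : V ≃ G, ∀ b ∈ B, ∀ g : G,
    b.map ((f.trans (Equiv.addRight g)).trans f.symm).toEmbedding ∈ B

/-! ### The design -/

/-- multiplication by a primitive element of the field with four elements -/
def om (x : ℕ) : ℕ := Nat.land (Nat.shiftRight 120 (2 * x)) 3

/-- third point of the line through two points of the affine line over the field with four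
elements -/
def s (a b : ℕ) : ℕ := Nat.xor a (om (Nat.xor a b))

/-- third point of a line -/
def tn (u v : ℕ) : ℕ :=
  s (u % 4) (v % 4) +
    4 * (bif Nat.beq (u / 16) 0 && Nat.beq (v / 16) 0 then s (v / 4 % 4) (u / 4 % 4)
      else s (u / 4 % 4) (v / 4 % 4)) +
    16 * s (u / 16) (v / 16)

/-- all the identities needed for two points -/
def good (u v : ℕ) : Bool :=
  Nat.beq u v ||
    (Nat.blt (tn u v) 64 && !(Nat.beq (tn u v) u) && !(Nat.beq (tn u v) v) &&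
      !(Nat.beq (tn u v) (tn v u)) &&
      Nat.beq (tn u (tn u v)) (tn v u) && Nat.beq (tn (tn u v) u) v &&
      Nat.beq (tn v (tn u v)) u && Nat.beq (tn (tn u v) v) (tn v u) &&
      Nat.beq (tn (tn u v) (tn v u)) u)

theorem good_all : ∀ u < 64, ∀ v < 64, good u v = true := by decide +kernel

lemma good_spec {u v : ℕ} (hu : u < 64) (hv : v < 64) (huv : u ≠ v) :
    tn u v < 64 ∧ tn u v ≠ u ∧ tn u v ≠ v ∧ tn u v ≠ tn v u ∧
      tn u (tn u v) = tn v u ∧ tn (tn u v) u = v ∧ tn v (tn u v) = u ∧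
      tn (tn u v) v = tn v u ∧ tn (tn u v) (tn v u) = u := by
  have h := good_all u hu v hv
  have hb : ∀ a b : ℕ, Nat.beq a b = true ↔ a = b := fun a b =>
    ⟨Nat.eq_of_beq_eq_true, fun h => by rw [h]; exact Nat.beq_refl b⟩
  have hl : ∀ a b : ℕ, Nat.blt a b = true ↔ a < b := fun a b => by
    rw [Nat.blt_eq]
  have h0 : ¬ Nat.beq u v = true := fun h => huv ((hb _ _).1 h)
  unfold good at h
  simp only [Bool.or_eq_true, Bool.and_eq_true, Bool.not_eq_true', ← Bool.not_eq_true, hb,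
    hl] at h
  rcases h with h | h
  · exact absurd h huv
  · obtain ⟨⟨⟨⟨⟨⟨⟨⟨h1, h2⟩, h3⟩, h4⟩, h5⟩, h6⟩, h7⟩, h8⟩, h9⟩ := h
    exact ⟨h1, h2, h3, h4, h5, h6, h7, h8, h9⟩

/-- third point of a line -/
def T (u v : Fin 64) : Fin 64 := ⟨tn u v % 64, Nat.mod_lt _ (by norm_num)⟩

lemma T_val {u v : Fin 64} (h : u ≠ v) : ((T u v : Fin 64) : ℕ) = tn u v := by
  have h1 : (u : ℕ) ≠ v := fun e => h (Fin.ext e)
  exact Nat.mod_eq_of_lt (good_spec u.2 v.2 h1).1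

/-- the line through two points -/
def blk (u v : Fin 64) : Finset (Fin 64) := {u, v, T u v, T v u}

/-- the blocks -/
def B : Set (Finset (Fin 64)) := {b | ∃ u v, u ≠ v ∧ b = blk u v}

lemma T_spec {u v : Fin 64} (h : u ≠ v) :
    T u v ≠ u ∧ T u v ≠ v ∧ T u v ≠ T v u ∧ T u (T u v) = T v u ∧ T (T u v) u = v ∧
      T v (T u v) = u ∧ T (T u v) v = T v u ∧ T (T u v) (T v u) = u := by
  have h1 : (u : ℕ) ≠ v := fun e => h (Fin.ext e)
  obtain ⟨g0, g1, g2, g3, g4, g5, g6, g7, g8⟩ := good_spec u.2 v.2 h1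
  have a1 : T u v ≠ u := fun e => g1 (by rw [← T_val h, e])
  have a2 : T u v ≠ v := fun e => g2 (by rw [← T_val h, e])
  have a3 : T u v ≠ T v u := fun e => g3 (by rw [← T_val h, ← T_val h.symm, e])
  refine ⟨a1, a2, a3, ?_, ?_, ?_, ?_, ?_⟩
  · apply Fin.ext
    rw [T_val a1.symm, T_val h, T_val h.symm, g4]
  · apply Fin.ext
    rw [T_val a1, T_val h, g5]
  · apply Fin.ext
    rw [T_val a2.symm, T_val h, g6]
  · apply Fin.ext
    rw [T_val a2, T_val h, T_val h.symm, g7]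
  · apply Fin.ext
    rw [T_val a3, T_val h, T_val h.symm, g8]

lemma blk_comm (u v : Fin 64) : blk u v = blk v u := by
  ext x
  simp only [blk, Finset.mem_insert, Finset.mem_singleton]
  tauto

lemma blk_T {u v : Fin 64} (h : u ≠ v) : blk u (T u v) = blk u v := by
  obtain ⟨a1, a2, a3, a4, a5, a6, a7, a8⟩ := T_spec h
  ext x
  simp only [blk, Finset.mem_insert, Finset.mem_singleton, a4, a5]
  tauto

lemma blk_T' {u v : Fin 64} (h : u ≠ v) : blk v (T u v) = blk u v := by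
  obtain ⟨a1, a2, a3, a4, a5, a6, a7, a8⟩ := T_spec h
  ext x
  simp only [blk, Finset.mem_insert, Finset.mem_singleton, a6, a7]
  tauto

lemma blk_TT {u v : Fin 64} (h : u ≠ v) : blk (T u v) (T v u) = blk u v := by
  obtain ⟨a1, a2, a3, a4, a5, a6, a7, a8⟩ := T_spec h
  obtain ⟨b1, b2, b3, b4, b5, b6, b7, b8⟩ := T_spec h.symm
  ext x
  simp only [blk, Finset.mem_insert, Finset.mem_singleton, a8, b8]
  tauto

lemma blk_unique {u v x y : Fin 64} (h : u ≠ v) (hxy : x ≠ y) (hx : x ∈ blk u v)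
    (hy : y ∈ blk u v) : blk x y = blk u v := by
  simp only [blk, Finset.mem_insert, Finset.mem_singleton] at hx hy
  have k1 := blk_T h
  have k2 := blk_T' h
  have k3 := blk_T h.symm
  have k4 := blk_T' h.symm
  have k5 := blk_TT h
  rw [blk_comm v u] at k3 k4
  rcases hx with rfl | rfl | rfl | rfl <;> rcases hy with rfl | rfl | rfl | rfl
  · exact absurd rfl hxy
  · rfl
  · exact k1
  · exact k4
  · exact blk_comm _ _
  · exact absurd rfl hxy
  · exact k2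
  · exact k3
  · rw [blk_comm]; exact k1
  · rw [blk_comm]; exact k2
  · exact absurd rfl hxy
  · exact k5
  · rw [blk_comm]; exact k4
  · rw [blk_comm]; exact k3
  · rw [blk_comm]; exact k5
  · exact absurd rfl hxy

lemma mem_left (u v : Fin 64) : u ∈ blk u v := by simp [blk]
lemma mem_right (u v : Fin 64) : v ∈ blk u v := by simp [blk]

lemma eq_blk {b : Finset (Fin 64)} (hb : b ∈ B) {x y : Fin 64} (hxy : x ≠ y) (hx : x ∈ b)
    (hy : y ∈ b) : b = blk x y := by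
  obtain ⟨u, v, huv, rfl⟩ := hb
  exact (blk_unique huv hxy hx hy).symm

theorem isSteiner : IsSteiner 4 B where
  two_le := by norm_num
  le_card := by simp
  size := by
    rintro b ⟨u, v, huv, rfl⟩
    obtain ⟨a1, a2, a3, a4, a5, a6, a7, a8⟩ := T_spec huv
    obtain ⟨b1, b2, b3, b4, b5, b6, b7, b8⟩ := T_spec huv.symm
    unfold blk
    rw [Finset.card_insert_of_notMem, Finset.card_insert_of_notMem,
      Finset.card_insert_of_notMem, Finset.card_singleton]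
    · simpa using a3
    · simp only [Finset.mem_insert, Finset.mem_singleton, not_or]
      exact ⟨a2.symm, b1.symm⟩
    · simp only [Finset.mem_insert, Finset.mem_singleton, not_or]
      exact ⟨huv, a1.symm, b2.symm⟩
  unique := fun x y hxy =>
    ⟨blk x y, ⟨⟨x, y, hxy, rfl⟩, mem_left x y, mem_right x y⟩,
      fun b hb => eq_blk hb.1 hxy hb.2.1 hb.2.2⟩

/-! ### It is strictly additive -/

/-- the group -/
abbrev G : Type := Fin 6 → ZMod 2

/-- binary digits -/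
def digits (u : Fin 64) : G := fun i => if (u : ℕ).testBit i = true then 1 else 0

lemma digits_inj : Function.Injective digits := by
  intro u v h
  apply Fin.ext
  apply Nat.eq_of_testBit_eq
  intro i
  by_cases hi : i < 6
  · have h1 := congrFun h ⟨i, hi⟩
    simp only [digits] at h1
    by_cases hu : (u : ℕ).testBit i = true <;> by_cases hv : (v : ℕ).testBit i = true
    · rw [hu, hv]
    · rw [if_pos hu, if_neg hv] at h1
      exact absurd h1 (by decide)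
    · rw [if_neg hu, if_pos hv] at h1
      exact absurd h1 (by decide)
    · rw [Bool.not_eq_true] at hu hv
      rw [hu, hv]
  · have e : (2 : ℕ) ^ 6 ≤ 2 ^ i := Nat.pow_le_pow_right (by norm_num) (by omega)
    rw [Nat.testBit_lt_two_pow (lt_of_lt_of_le u.2 e),
      Nat.testBit_lt_two_pow (lt_of_lt_of_le v.2 e)]

/-- binary digits as an equivalence -/
noncomputable def digitsEquiv : Fin 64 ≃ G :=
  Equiv.ofBijective digits
    ((Fintype.bijective_iff_injective_and_card digits).2 ⟨digits_inj, by simp⟩)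

/-- the parity check -/
def evenb (u v : ℕ) : Bool :=
  Nat.beq u v || Nat.beq (Nat.xor (Nat.xor u v) (Nat.xor (tn u v) (tn v u))) 0

theorem even_all : ∀ u < 64, ∀ v < 64, evenb u v = true := by decide +kernel

theorem additive : StrictlyAdditive G B := by
  refine ⟨digitsEquiv, ?_⟩
  rintro b ⟨u, v, huv, rfl⟩
  obtain ⟨a1, a2, a3, a4, a5, a6, a7, a8⟩ := T_spec huv
  obtain ⟨b1, b2, b3, b4, b5, b6, b7, b8⟩ := T_spec huv.symm
  unfold blk
  rw [Finset.sum_insert, Finset.sum_insert, Finset.sum_insert, Finset.sum_singleton]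
  · have h1 : (u : ℕ) ≠ v := fun e => huv (Fin.ext e)
    have h := even_all u u.2 v v.2
    unfold evenb at h
    rw [Bool.or_eq_true] at h
    rcases h with h | h
    · exact absurd (Nat.eq_of_beq_eq_true h) h1
    · have h2 := Nat.eq_of_beq_eq_true h
      have h3 : ∀ i, (((u : ℕ).testBit i ^^ (v : ℕ).testBit i) ^^
          ((tn u v).testBit i ^^ (tn v u).testBit i)) = false := by
        intro i
        have h4 : (((u : ℕ) ^^^ (v : ℕ)) ^^^ ((tn u v) ^^^ (tn v u))).testBit i = false := by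
          have : (((u : ℕ) ^^^ (v : ℕ)) ^^^ ((tn u v) ^^^ (tn v u))) = 0 := h2
          rw [this]
          exact Nat.zero_testBit i
        rwa [Nat.testBit_xor, Nat.testBit_xor, Nat.testBit_xor] at h4
      have key : ∀ p q r t : Bool, ((p ^^ q) ^^ (r ^^ t)) = false →
          (if p = true then (1 : ZMod 2) else 0) + ((if q = true then 1 else 0) +
            ((if r = true then 1 else 0) + (if t = true then 1 else 0))) = 0 := by
        decide
      funext i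
      have e1 : digitsEquiv u i = if (u : ℕ).testBit i = true then 1 else 0 := rfl
      have e2 : digitsEquiv v i = if (v : ℕ).testBit i = true then 1 else 0 := rfl
      have e3 : digitsEquiv (T u v) i = if (tn u v).testBit i = true then 1 else 0 := by
        rw [← T_val huv]; rfl
      have e4 : digitsEquiv (T v u) i = if (tn v u).testBit i = true then 1 else 0 := by
        rw [← T_val huv.symm]; rfl
      rw [Pi.add_apply, Pi.add_apply, Pi.add_apply, e1, e2, e3, e4]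
      exact key _ _ _ _ (h3 i)
  · simpa using a3
  · simp only [Finset.mem_insert, Finset.mem_singleton, not_or]
    exact ⟨a2.symm, b1.symm⟩
  · simp only [Finset.mem_insert, Finset.mem_singleton, not_or]
    exact ⟨huv, a1.symm, b2.symm⟩

/-! ### Its automorphism group is not transitive -/

/-- there are two blocks through `x` without any Pasch-like closure -/
def Q (x : Fin 64) : Prop :=
  ∃ l₁ ∈ B, ∃ l₂ ∈ B, x ∈ l₁ ∧ x ∈ l₂ ∧ l₁ ≠ l₂ ∧
    ∀ y₁ ∈ l₁, ∀ y₂ ∈ l₁, ∀ z₁ ∈ l₂, ∀ z₂ ∈ l₂, y₁ ≠ x → y₂ ≠ x → z₁ ≠ x → z₂ ≠ x →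
      y₁ ≠ y₂ → z₁ ≠ z₂ → ∀ m₁ ∈ B, ∀ m₂ ∈ B, y₁ ∈ m₁ → z₁ ∈ m₁ → y₂ ∈ m₂ → z₂ ∈ m₂ →
        ∀ p ∈ m₁, p ∉ m₂

lemma blocks_meet {l₁ l₂ : Finset (Fin 64)} (h₁ : l₁ ∈ B) (h₂ : l₂ ∈ B) (hne : l₁ ≠ l₂)
    {x y : Fin 64} (hx₁ : x ∈ l₁) (hx₂ : x ∈ l₂) (hy₁ : y ∈ l₁) (hy₂ : y ∈ l₂) : x = y := by
  by_contra hxy
  exact hne ((eq_blk h₁ hxy hx₁ hy₁).trans (eq_blk h₂ hxy hx₂ hy₂).symm)

/-- the property is invariant under bijections mapping blocks to blocks -/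
lemma Q_map (σ : Equiv.Perm (Fin 64)) (hσ : ∀ b ∈ B, b.map σ.toEmbedding ∈ B) {x : Fin 64}
    (h : Q x) : Q (σ x) := by
  obtain ⟨l₁, hl₁, l₂, hl₂, hx₁, hx₂, hne, h⟩ := h
  have hmem : ∀ (b : Finset (Fin 64)) (y : Fin 64), y ∈ b → σ y ∈ b.map σ.toEmbedding :=
    fun b y hy => Finset.mem_map.2 ⟨y, hy, rfl⟩
  refine ⟨_, hσ l₁ hl₁, _, hσ l₂ hl₂, hmem _ _ hx₁, hmem _ _ hx₂, ?_, ?_⟩
  · intro e
    exact hne (Finset.map_injective _ e)
  · intro y₁ hy₁ y₂ hy₂ z₁ hz₁ z₂ hz₂ n1 n2 n3 n4 n5 n6 m₁ hm₁ m₂ hm₂ i1 i2 i3 i4 p hp hp'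
    obtain ⟨a₁, ha₁, rfl⟩ := Finset.mem_map.1 hy₁
    obtain ⟨a₂, ha₂, rfl⟩ := Finset.mem_map.1 hy₂
    obtain ⟨c₁, hc₁, rfl⟩ := Finset.mem_map.1 hz₁
    obtain ⟨c₂, hc₂, rfl⟩ := Finset.mem_map.1 hz₂
    have q1 : a₁ ≠ x := fun e => n1 (by rw [e]; rfl)
    have q2 : a₂ ≠ x := fun e => n2 (by rw [e]; rfl)
    have q3 : c₁ ≠ x := fun e => n3 (by rw [e]; rfl)
    have q4 : c₂ ≠ x := fun e => n4 (by rw [e]; rfl)
    have q5 : a₁ ≠ a₂ := fun e => n5 (by rw [e])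
    have q6 : c₁ ≠ c₂ := fun e => n6 (by rw [e])
    have r1 : a₁ ≠ c₁ := by
      rintro rfl
      exact q1 (blocks_meet hl₁ hl₂ hne ha₁ hc₁ hx₁ hx₂)
    have r2 : a₂ ≠ c₂ := by
      rintro rfl
      exact q2 (blocks_meet hl₁ hl₂ hne ha₂ hc₂ hx₁ hx₂)
    have w1 : m₁ = (blk a₁ c₁).map σ.toEmbedding := by
      have hb : (blk a₁ c₁).map σ.toEmbedding ∈ B := hσ _ ⟨a₁, c₁, r1, rfl⟩
      have hn : σ a₁ ≠ σ c₁ := fun e => r1 (σ.injective e)
      exact (eq_blk hm₁ hn i1 i2).trans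
        (eq_blk hb hn (hmem _ _ (mem_left _ _)) (hmem _ _ (mem_right _ _))).symm
    have w2 : m₂ = (blk a₂ c₂).map σ.toEmbedding := by
      have hb : (blk a₂ c₂).map σ.toEmbedding ∈ B := hσ _ ⟨a₂, c₂, r2, rfl⟩
      have hn : σ a₂ ≠ σ c₂ := fun e => r2 (σ.injective e)
      exact (eq_blk hm₂ hn i3 i4).trans
        (eq_blk hb hn (hmem _ _ (mem_left _ _)) (hmem _ _ (mem_right _ _))).symm
    rw [w1] at hp
    rw [w2] at hp'
    obtain ⟨d, hd, rfl⟩ := Finset.mem_map.1 hp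
    obtain ⟨d', hd', e⟩ := Finset.mem_map.1 hp'
    have e' : d' = d := σ.injective e
    subst e'
    exact h a₁ ha₁ a₂ ha₂ c₁ hc₁ c₂ hc₂ q1 q2 q3 q4 q5 q6 _ ⟨a₁, c₁, r1, rfl⟩ _
      ⟨a₂, c₂, r2, rfl⟩ (mem_left _ _) (mem_right _ _) (mem_left _ _) (mem_right _ _) d' hd hd'

/-- the line as a list of numbers -/
def bl (u v : ℕ) : List ℕ := [u, v, tn u v, tn v u]

lemma mem_blk_iff {u v : Fin 64} (h : u ≠ v) (x : Fin 64) :
    x ∈ blk u v ↔ (x : ℕ) ∈ bl u v := by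
  simp only [blk, bl, Finset.mem_insert, Finset.mem_singleton, List.mem_cons,
    List.not_mem_nil, or_false, Fin.ext_iff, T_val h, T_val h.symm]

/-- the two lines have a common point -/
def meets (y₁ z₁ y₂ z₂ : ℕ) : Bool :=
  (bl y₁ z₁).any (fun p => (bl y₂ z₂).any (fun q => Nat.beq p q))

lemma meets_iff {y₁ z₁ y₂ z₂ : Fin 64} (h₁ : y₁ ≠ z₁) (h₂ : y₂ ≠ z₂) :
    meets y₁ z₁ y₂ z₂ = true ↔ ∃ p, p ∈ blk y₁ z₁ ∧ p ∈ blk y₂ z₂ := by
  unfold meets
  rw [List.any_eq_true]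
  constructor
  · rintro ⟨p, hp, h⟩
    rw [List.any_eq_true] at h
    obtain ⟨q, hq, e⟩ := h
    have e' := Nat.eq_of_beq_eq_true e
    subst e'
    have hlt : p < 64 := by
      have h1 : (y₁ : ℕ) ≠ z₁ := fun e => h₁ (Fin.ext e)
      have t1 := (good_spec y₁.2 z₁.2 h1).1
      have t2 := (good_spec z₁.2 y₁.2 h1.symm).1
      simp only [bl, List.mem_cons, List.not_mem_nil, or_false] at hp
      have := y₁.2
      have := z₁.2
      omega
    exact ⟨⟨p, hlt⟩, (mem_blk_iff h₁ _).2 hp, (mem_blk_iff h₂ _).2 hq⟩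
  · rintro ⟨p, hp, hq⟩
    refine ⟨p, (mem_blk_iff h₁ _).1 hp, ?_⟩
    rw [List.any_eq_true]
    exact ⟨p, (mem_blk_iff h₂ _).1 hq, Nat.beq_refl _⟩

theorem Q_zero : Q 0 := by
  have h05 : (0 : Fin 64) ≠ 5 := by decide
  have h016 : (0 : Fin 64) ≠ 16 := by decide
  have key : ∀ y₁ ∈ blk 0 5, ∀ y₂ ∈ blk 0 5, ∀ z₁ ∈ blk 0 16, ∀ z₂ ∈ blk 0 16,
      y₁ ≠ 0 → y₂ ≠ 0 → z₁ ≠ 0 → z₂ ≠ 0 → y₁ ≠ y₂ → z₁ ≠ z₂ →
        y₁ ≠ z₁ ∧ y₂ ≠ z₂ ∧ meets y₁ z₁ y₂ z₂ = false := by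
    decide +kernel
  refine ⟨blk 0 5, ⟨0, 5, h05, rfl⟩, blk 0 16, ⟨0, 16, h016, rfl⟩, mem_left _ _, mem_left _ _,
    by decide +kernel, ?_⟩
  intro y₁ hy₁ y₂ hy₂ z₁ hz₁ z₂ hz₂ n1 n2 n3 n4 n5 n6 m₁ hm₁ m₂ hm₂ i1 i2 i3 i4 p hp hp'
  obtain ⟨k1, k2, k3⟩ := key y₁ hy₁ y₂ hy₂ z₁ hz₁ z₂ hz₂ n1 n2 n3 n4 n5 n6
  rw [eq_blk hm₁ k1 i1 i2] at hp
  rw [eq_blk hm₂ k2 i3 i4] at hp'
  rw [(meets_iff k1 k2).2 ⟨p, hp, hp'⟩] at k3
  exact Bool.noConfusion k3

/-- the candidates for two points of a line through `16` -/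
def cand (v : ℕ) : List (ℕ × ℕ) :=
  [(v, tn 16 v), (v, tn v 16), (tn 16 v, v), (tn 16 v, tn v 16), (tn v 16, v),
    (tn v 16, tn 16 v)]

/-- the check for two points -/
def chk (v₁ v₂ : ℕ) : Bool :=
  Nat.beq v₁ 16 || Nat.beq v₂ 16 || Nat.beq v₂ v₁ || Nat.beq v₂ (tn 16 v₁) ||
    Nat.beq v₂ (tn v₁ 16) ||
    (cand v₁).any (fun y => (cand v₂).any (fun z => meets y.1 z.1 y.2 z.2))

theorem chk_all : ∀ v₁ < 64, ∀ v₂ < 64, chk v₁ v₂ = true := by decide +kernel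

lemma cand_spec {v : Fin 64} (h : v ≠ 16) {y : ℕ × ℕ} (hy : y ∈ cand v) :
    ∃ y₁ y₂ : Fin 64, y = ((y₁ : ℕ), (y₂ : ℕ)) ∧ y₁ ∈ blk 16 v ∧ y₂ ∈ blk 16 v ∧ y₁ ≠ 16 ∧
      y₂ ≠ 16 ∧ y₁ ≠ y₂ := by
  obtain ⟨a1, a2, a3, a4, a5, a6, a7, a8⟩ := T_spec h.symm
  obtain ⟨b1, b2, b3, b4, b5, b6, b7, b8⟩ := T_spec h
  have e1 : tn 16 v = ((T 16 v : Fin 64) : ℕ) := (T_val h.symm).symm
  have e2 : tn v 16 = ((T v 16 : Fin 64) : ℕ) := (T_val h).symm
  have m1 : v ∈ blk 16 v := mem_right _ _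
  have m2 : T 16 v ∈ blk 16 v := by simp [blk]
  have m3 : T v 16 ∈ blk 16 v := by simp [blk]
  simp only [cand, List.mem_cons, List.not_mem_nil, or_false, e1, e2] at hy
  rcases hy with rfl | rfl | rfl | rfl | rfl | rfl
  · exact ⟨v, T 16 v, rfl, m1, m2, h, a1, a2.symm⟩
  · exact ⟨v, T v 16, rfl, m1, m3, h, b2, b1.symm⟩
  · exact ⟨T 16 v, v, rfl, m2, m1, a1, h, a2⟩
  · exact ⟨T 16 v, T v 16, rfl, m2, m3, a1, b2, a3⟩
  · exact ⟨T v 16, v, rfl, m3, m1, b2, h, b1⟩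
  · exact ⟨T v 16, T 16 v, rfl, m3, m2, b2, a1, b3⟩

theorem not_Q : ¬ Q 16 := by
  rintro ⟨l₁, hl₁, l₂, hl₂, hx₁, hx₂, hne, h⟩
  have hex : ∀ l ∈ B, (16 : Fin 64) ∈ l → ∃ v, v ≠ 16 ∧ l = blk 16 v := by
    intro l hl hx
    obtain ⟨v, hv, hv'⟩ := Finset.exists_mem_ne (by rw [isSteiner.size l hl]; norm_num)
      (16 : Fin 64)
    exact ⟨v, hv', eq_blk hl hv'.symm hx hv⟩
  obtain ⟨v₁, hv₁, rfl⟩ := hex l₁ hl₁ hx₁
  obtain ⟨v₂, hv₂, rfl⟩ := hex l₂ hl₂ hx₂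
  have hnot : v₂ ∉ blk 16 v₁ := by
    intro hmem
    exact hne (blk_unique hv₁.symm hv₂.symm (mem_left _ _) hmem).symm
  have hchk := chk_all v₁ v₁.2 v₂ v₂.2
  unfold chk at hchk
  have hnot' : ¬ ((v₂ : ℕ) ∈ bl (16 : Fin 64) v₁) := fun e =>
    hnot ((mem_blk_iff hv₁.symm v₂).2 e)
  simp only [bl, List.mem_cons, List.not_mem_nil, or_false, not_or] at hnot'
  obtain ⟨z1, z2, z3, z4⟩ := hnot'
  have hb : ∀ a b : ℕ, Nat.beq a b = true → a = b := fun a b => Nat.eq_of_beq_eq_true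
  simp only [Bool.or_eq_true, List.any_eq_true] at hchk
  rcases hchk with ((((h1 | h1) | h1) | h1) | h1) | ⟨y, hy, z, hz, hm⟩
  · exact hv₁ (Fin.ext (hb _ _ h1))
  · exact hv₂ (Fin.ext (hb _ _ h1))
  · exact z2 (hb _ _ h1)
  · exact z3 (hb _ _ h1)
  · exact z4 (hb _ _ h1)
  · obtain ⟨y₁, y₂, rfl, p1, p2, p3, p4, p5⟩ := cand_spec hv₁ hy
    obtain ⟨z₁, z₂, rfl, q1, q2, q3, q4, q5⟩ := cand_spec hv₂ hz
    have r1 : y₁ ≠ z₁ := by
      rintro rfl
      exact p3 (blocks_meet hl₁ hl₂ hne p1 q1 hx₁ hx₂)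
    have r2 : y₂ ≠ z₂ := by
      rintro rfl
      exact p4 (blocks_meet hl₁ hl₂ hne p2 q2 hx₁ hx₂)
    obtain ⟨p, hp, hp'⟩ := (meets_iff r1 r2).1 hm
    exact h y₁ p1 y₂ p2 z₁ q1 z₂ q2 p3 p4 q3 q4 p5 q5 _ ⟨y₁, z₁, r1, rfl⟩ _
      ⟨y₂, z₂, r2, rfl⟩ (mem_left _ _) (mem_right _ _) (mem_left _ _) (mem_right _ _) p hp hp'

theorem not_regular : ¬ Regular G B := by
  rintro ⟨f, hf⟩
  have h := Q_map ((f.trans (Equiv.addRight (f 16 - f 0))).trans f.symm)
    (fun b hb => hf b hb _) Q_zero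
  apply not_Q
  have e : ((f.trans (Equiv.addRight (f 16 - f 0))).trans f.symm) 0 = 16 := by
    simp
  rwa [e] at h

theorem result : ∃ (G : Type) (_ : AddCommGroup G) (_ : Finite G) (V : Type) (_ : Fintype V)
    (k : ℕ) (B : Set (Finset V)),
    IsSteiner k B ∧ StrictlyAdditive G B ∧ ¬ Regular G B :=
  ⟨G, inferInstance, inferInstance, Fin 64, inferInstance, 4, B, isSteiner, additive,
    not_regular⟩

end Pool.Agent.Results.MP_6c2242_co.AdditiveNotRegular
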